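import Pool.Agent.E8helper58.CM.All
import Pool.Agent.E8helper58.CM.Crit

/-!
# The Euler characteristic and the `ℓ²`-Betti numbers: a class of Davis manifolds given by conditions on links

Let `L` be the flag complex of the finite graph `G` and suppose that `L` is a real homology manifold with the real
homology of the `(n-1)`-sphere (`HSph n G`).  The Davis complex of the right-angled Coxeter group `W G` is then a
contractible real homology `n`-manifold (a topological manifold if `L` is a combinatorial sphere), and its quotients
`M` by torsion-free subgroups `H` of finite index are closed aspherical `n`-manifolds with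
`χ(M) = [W G : H] χ(W G)`, whose `ℓ²`-Betti numbers vanish if and only if those of the Davis complex do.

We prove the Singer conjecture for the Davis complex, and Q1 for `M`, for a class of nerves (`Cls n G Set.univ`) which
contains `L` if each link of even dimension `≥ 4` in `L` (`L` itself included) satisfies one of the following
conditions (`Loc`):
* it is a join;
* it has a vertex whose non-neighbours span a graph without cycles;
* it has dimension `2 k + 4` and each of its simplices with `k + 3` vertices has a vertex whose link has `chiW = 0`
  (`chiW` is the sum `∑_T (-1/2)^|T|` over the simplices `T`, the Euler characteristic of the Coxeter group of the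
  link, not the topological one);
* it has few vertices.
For `n = 5` there is only one condition, on `L`.  All conditions hold for the flag homology spheres with `3 n - c`
vertices and `c` join factors, the minimal number (a bound from the starting library).  The class is closed under the
inverse of the contraction of an edge which is not contained in an induced 4-cycle, if the links of this edge and
of its vertices are in the class (which is automatic for `n = 5`).
-/

set_option autoImplicit false

namespace Pool.Agent.Results.MP_394d50_gt.ContractionClassH58

open Pool.Agent.W907.SG Pool.Agent.W907.SM Pool.Agent.Y132.SI Pool.Agent.E8helper58.CM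
open Pool.Agent.TH652.Above (HSph lv_univ singer_of_above)
open Pool.Agent.W497.FS (comps)

/-- Let the flag complex of the finite graph `G` be a real homology sphere of dimension `n - 1`.

(1) If `G` has at most `3 n - c` vertices, where `c` is the number of join factors of the flag complex, or if all
links of even dimension `2 k + 4` satisfy the condition `Loc k`, then the flag complex is in the class.

(2) If the flag complex is in the class, then (a) for every full subcomplex `A` the reduced `ℓ²`-homology of the Davis
complex of `W (G.induce A)` vanishes in the degrees above `n / 2`, (b) the reduced `ℓ²`-homology of the Davis complex of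
`W G` vanishes in all degrees `i ≠ n / 2`, (c) it vanishes in all degrees if and only if the Euler characteristic
`χ(W G) = ∑_T (-1/2)^|T|` (over the cliques `T` of `G`) is zero, (d) this is the case if and only if for each `ε > 0`
there is a finite set `E` of nontrivial elements of `W G` such that for all subgroups `H` of finite index of `W G`
containing no conjugate of an element of `E` all real Betti numbers of `H` are at most `ε [W G : H]`. -/
theorem result : ∀ (n : ℕ) (V : Type) [Fintype V] [LinearOrder V] (G : SimpleGraph V), HSph n G →
    ((Fintype.card V + (comps G Finset.univ).card ≤ 3 * n ∨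
        (∀ (S : Finset V) (k : ℕ), G.IsClique (S : Set V) → S.card + (2 * k + 5) = n → Loc k G (lk G S))) →
      Cls n G Set.univ) ∧
    (Cls n G Set.univ →
      (∀ (A : Set V) [Fintype ↥A] (i : ℕ), n < 2 * i → L2Van (G.induce A) i) ∧
      (∀ i : ℕ, 2 * i ≠ n → L2Van G i) ∧
      ((∀ i : ℕ, L2Van G i) ↔ chiW G = 0) ∧
      (chiW G = 0 ↔ ∀ ε : ℝ, 0 < ε → ∃ E : Finset (W G), (1 : W G) ∉ E ∧
        ∀ H : Subgroup (W G), H.FiniteIndex → (∀ g ∈ E, ∀ x : W G, x * g * x⁻¹ ∉ H) →
          ∀ i : ℕ, (Module.finrank ℝ (HInv G H i) : ℝ) ≤ ε * H.index)) := by
  intro n V _ _ G hS
  refine ⟨fun h => cls_univ hS fun S k hcl hk => ?_, fun h => ?_⟩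
  · rcases h with h | h
    · exact loc_of_card hS h S k hcl hk
    · exact h S k hcl hk
  have h1 : Pool.Agent.E8helper58.FV.R G n Set.univ := cls_R conA conB irr h (sphA_univ hS)
  have h2 : ∀ i : ℕ, n < 2 * i → L2Van G i := fun i hi =>
    (lv_univ G i).1 (h1 Set.univ (Set.subset_univ _) i hi) _ _
  have hs : ∀ i : ℕ, 2 * i ≠ n → L2Van G i := fun i hi => singer_of_above hS h2 i hi
  refine ⟨?_, hs, l2eul V G (n / 2) fun i hi => hs i (by omega), chi_iff G n hs⟩
  intro A _ i hi
  exact h1 A (Set.subset_univ _) i hi _ _

end Pool.Agent.Results.MP_394d50_gt.ContractionClassH58
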