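import Pool.Agent.E8helper58.FV.Cor
import Pool.Agent.R781.VS.Growth

/-!
# The Euler characteristic and the `ℓ²`-Betti numbers for flag spheres with few vertices

Let `L` be the flag complex of the finite graph `G` and suppose that `L` is a real homology manifold with the real
homology of the `(n-1)`-sphere (`HSph n G`).  The Davis complex of the right-angled Coxeter group `W G` is then a
contractible real homology `n`-manifold (a topological manifold if `L` is a combinatorial sphere), and its quotients
`M` by torsion-free subgroups `H` of finite index are closed aspherical `n`-manifolds with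
`χ(M) = [W G : H] χ(W G)`, whose `ℓ²`-Betti numbers vanish if and only if those of the Davis complex do.

We show that the `i`-th `ℓ²`-Betti number vanishes if `G` has fewer than `n + 3 i` or fewer than `4 n - 3 i`
vertices, and that Q1 holds for `M` if `G` has at most `n + 3 ⌊n / 2⌋ + 2` vertices, or if (for `2 ≤ n`) every
simplex of `L` with `⌊n / 2⌋ + 1` vertices has a vertex with less than `n + 3 ⌊n / 2⌋ - 1` neighbours, or under
an analogous condition on links of higher codimension (`Few n G (n / 2) ∅`).  The join of `m` pentagons (`n = 2 m`,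
with `5 m` vertices, and with `5 m - 3` neighbours of each vertex) has a nonzero Euler characteristic.
-/

set_option autoImplicit false

namespace Pool.Agent.Results.MP_394d50_gt.FewVerticesH58

open Pool.Agent.W907.SG Pool.Agent.W907.SM Pool.Agent.Y132.SI Pool.Agent.E8helper58.FV
open Pool.Agent.TH652.Above (HSph)

/-- Let the flag complex of the finite graph `G` be a real homology sphere of dimension `n - 1`.

(1) `Few n G j ∅` implies that the reduced `ℓ²`-homology of the Davis complex of `W G` vanishes in all degrees
`i > j` and `i < n - j`; the condition is satisfied if `G` has at most `max (n + 3 j + 2) (2 n + j)` vertices, or if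
`1 ≤ j` and every clique with `j + 1` vertices has a vertex with at most `max (n + 3 j - 2) (2 n + j - 3)`
neighbours.

(2) If `Few n G (n / 2) ∅`, the following are equivalent: (a) the reduced `ℓ²`-homology vanishes in all degrees,
(b) the Euler characteristic `χ(W G) = ∑_T (-1/2)^|T|` (over the cliques `T` of `G`) is zero, (c) for each `ε > 0`
there is a finite set `E` of nontrivial elements of `W G` such that for all subgroups `H` of finite index of `W G`
containing no conjugate of an element of `E` all real Betti numbers of `H` are at most `ε [W G : H]`.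

(3) If `Few n G j ∅` for some `j < n / 2`, for instance if `G` has fewer than `5 n / 2` vertices, then (a), (b) and
(c) hold. -/
theorem result : ∀ (n : ℕ) (V : Type) [Fintype V] [LinearOrder V] (G : SimpleGraph V), HSph n G →
    (∀ j : ℕ,
      (Fintype.card V ≤ n + 3 * j + 2 ∨ Fintype.card V ≤ 2 * n + j ∨
        (1 ≤ j ∧ ∀ T : Finset V, G.IsClique (T : Set V) → T.card = j + 1 →
          ∃ v ∈ T, (G.neighborSet v).ncard + 2 ≤ n + 3 * j ∨ (G.neighborSet v).ncard + 3 ≤ 2 * n + j) →
        Few n G j ∅) ∧
      (Few n G j ∅ → ∀ i : ℕ, j < i ∨ i + j < n → L2Van G i)) ∧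
    (Few n G (n / 2) ∅ →
      ((∀ i : ℕ, L2Van G i) ↔ chiW G = 0) ∧
      (chiW G = 0 ↔ ∀ ε : ℝ, 0 < ε → ∃ E : Finset (W G), (1 : W G) ∉ E ∧
        ∀ H : Subgroup (W G), H.FiniteIndex → (∀ g ∈ E, ∀ x : W G, x * g * x⁻¹ ∉ H) →
          ∀ i : ℕ, (Module.finrank ℝ (HInv G H i) : ℝ) ≤ ε * H.index)) ∧
    ((2 * Fintype.card V < 5 * n ∨ ∃ j : ℕ, 2 * j < n ∧ Few n G j ∅) →
      (∀ i : ℕ, L2Van G i) ∧ chiW G = 0) := by
  intro n V _ _ G hS
  have hvan : ∀ j : ℕ, 2 * j < n → Few n G j ∅ → ∀ i : ℕ, L2Van G i := fun j hj h i =>
    few_range hS h i (by omega)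
  have hiff : (∀ i : ℕ, 2 * i ≠ n → L2Van G i) → ((∀ i : ℕ, L2Van G i) ↔ chiW G = 0) := fun h =>
    l2eul V G (n / 2) fun i hi => h i (by omega)
  refine ⟨fun j => ⟨?_, fun h i hi => few_range hS h i hi⟩, fun h => ?_, fun h => ?_⟩
  · rintro (h | h | ⟨h1, h⟩)
    · exact few_of_card (Or.inl h)
    · exact few_of_card (Or.inr h)
    · obtain ⟨j', rfl⟩ : ∃ j', j = j' + 1 := ⟨j - 1, by omega⟩
      refine few_of_deg fun T hT hc => ?_
      obtain ⟨v, hv, h2⟩ := h T hT hc
      exact ⟨v, hv, by omega⟩
  · have hs : ∀ i : ℕ, 2 * i ≠ n → L2Van G i := fun i hi => few_singer hS h i hi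
    exact ⟨hiff hs, chi_iff G n hs⟩
  · have hall : ∀ i : ℕ, L2Van G i := by
      rcases h with h | ⟨j, hj, h⟩
      · have hsz := Pool.Agent.E8helper58.FV.size (n := n) hS n ∅ (by simp) (by simp)
        rw [ncard_lk_empty] at hsz
        refine hvan ((n - 1) / 2) (by omega) (few_of_card ?_)
        omega
      · exact hvan j hj h
    exact ⟨hall, (hiff fun i _ => hall i).1 hall⟩

end Pool.Agent.Results.MP_394d50_gt.FewVerticesH58
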