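import Pool.Agent.E8helper58.CM.All

/-!
# Reduction of the conjecture for Davis manifolds to irreducible nerves in odd dimensions

Let `L` be the flag complex of the finite graph `G` and suppose that `L` is a real homology manifold with the real
homology of the `(n-1)`-sphere (`HSph n G`).  The Davis complex of the right-angled Coxeter group `W G` is then a
contractible real homology `n`-manifold (a topological manifold if `L` is a combinatorial sphere), and its quotients
`M` by torsion-free subgroups `H` of finite index are closed aspherical `n`-manifolds with
`χ(M) = [W G : H] χ(W G)`, whose `ℓ²`-Betti numbers vanish if and only if those of the Davis complex do.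

We show that Q1 for all these manifolds of dimension at most `M`, the Singer conjecture for them, and the vanishing
above the middle dimension for all their full subcomplexes are equivalent to the vanishing in a single degree for
the odd dimensions `n` between `5` and `M` and the irreducible nerves (`Irred n G`): the nerve is not a join, each
edge is contained in an induced 4-cycle, some simplex with `(n + 1) / 2` vertices has only vertices whose links have
`chiW ≠ 0` (`chiW` is the sum `∑_T (-1/2)^|T|` over the simplices `T`, the Euler characteristic of the Coxeter group of
the link, not the topological one), and the number of vertices is at least `3 n` and more than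
`n + 3 ⌊n / 2⌋ + 2`.
-/

set_option autoImplicit false

namespace Pool.Agent.Results.MP_394d50_gt.ReductionH58

open Pool.Agent.W907.SG Pool.Agent.W907.SM Pool.Agent.E8helper58.CM
open Pool.Agent.TH652.Above (HSph lv_univ singer_of_above)

/-- For every `M` the following statements are equivalent.

(a) Q1 for the Davis manifolds of dimension `n ≤ M`: for every flag homology sphere of dimension `n - 1`, given by
the graph `G`, the reduced `ℓ²`-homology of the Davis complex of `W G` vanishes in all degrees if and only if the Euler
characteristic `χ(W G) = ∑_T (-1/2)^|T|` is zero.

(b) The Singer conjecture for these: the reduced `ℓ²`-homology vanishes in the degrees `i ≠ n / 2`.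

(c) For all full subcomplexes of these spheres the reduced `ℓ²`-homology vanishes in the degrees `i > n / 2`.

(d) For all odd `n` with `5 ≤ n ≤ M` and all irreducible flag homology spheres of dimension `n - 1` the reduced
`ℓ²`-homology vanishes in the degree `(n + 1) / 2`. -/
theorem result : ∀ M : ℕ, List.TFAE
    [∀ (n : ℕ) (V : Type) [Fintype V] [LinearOrder V] (G : SimpleGraph V), n ≤ M → HSph n G →
        ((∀ i : ℕ, L2Van G i) ↔ chiW G = 0),
      ∀ (n : ℕ) (V : Type) [Fintype V] [LinearOrder V] (G : SimpleGraph V), n ≤ M → HSph n G →
        ∀ i : ℕ, 2 * i ≠ n → L2Van G i,
      ∀ (n : ℕ) (V : Type) [Fintype V] [LinearOrder V] (G : SimpleGraph V), n ≤ M → HSph n G →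
        ∀ (A : Set V) [Fintype ↥A] (i : ℕ), n < 2 * i → L2Van (G.induce A) i,
      ∀ (n : ℕ) (V : Type) [Fintype V] [LinearOrder V] (G : SimpleGraph V), n ≤ M → HSph n G →
        Odd n → 5 ≤ n → Irred n G → L2Van G ((n + 1) / 2)] := by
  intro M
  tfae_have 1 → 4 := by
    intro h n V _ _ G hn hS hodd _ _
    exact (h n V G hn hS).2 (chi_odd hS hodd) _
  tfae_have 4 → 3 := by
    intro h n V _ _ G hn hS A _ i hi
    have hI : Irr 3 M := irr_three irr fun n V _ _ G hS hodd h5 hM hirr => h n V G hM hS hodd h5 hirr
    exact above_all conA conB hI hn hS A (Set.subset_univ _) i hi _ _
  tfae_have 3 → 2 := by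
    intro h n V _ _ G hn hS i hi
    refine singer_of_above hS (fun i hi => ?_) i hi
    exact (lv_univ G i).1 (lv_of (h n V G hn hS Set.univ i hi)) _ _
  tfae_have 2 → 1 := by
    intro h n V _ _ G hn hS
    exact l2eul V G (n / 2) fun i hi => h n V G hn hS i (by omega)
  tfae_finish

end Pool.Agent.Results.MP_394d50_gt.ReductionH58
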